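import Pool.Agent.helper48.TH.Spec

set_option autoImplicit false

namespace TP.TW

open DP MeasureTheory Finset

theorem SHP (prn : PRN_stmt) : SHP_stmt := by
  classical
  intro F Λ hCD i j
  set e : Fin #Λ ≃ Λ := Λ.equivFin.symm with he
  set ε : Fin #Λ → V := fun t => (e t : V) with hε
  have hεinj : Function.Injective ε := fun a b hab => e.injective (Subtype.ext hab)
  set E : (Fin #Λ → Bool) → V → Bool := fun x v => if h : v ∈ Λ then x (e.symm ⟨v, h⟩) else false with hE
  have key : ∀ γ : V → Bool, (γ ∈ F ↔ E (fun t => γ (ε t)) ∈ F) := by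
    intro γ
    apply hCD
    intro v hv
    simp only [hE, hv, dif_pos, hε, Equiv.apply_symm_apply]
  set ε' : Fin #Λ → V := fun t => ((ε t).1 + i, (ε t).2 + j) with hε'
  have hε'inj : Function.Injective ε' := by
    intro a b hab
    apply hεinj
    have h1 : (ε a).1 + i = (ε b).1 + i := congrArg Prod.fst hab
    have h2 : (ε a).2 + j = (ε b).2 + j := congrArg Prod.snd hab
    exact Prod.ext (by omega) (by omega)
  have h1 := prn #Λ ε hεinj (fun x => E x ∈ F)
  have h2 := prn #Λ ε' hε'inj (fun x => E x ∈ F)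
  have h3 : {β : V → Bool | (fun v => β (v.1 + i, v.2 + j)) ∈ F} = {β : V → Bool | E (fun t => β (ε' t)) ∈ F} := by
    ext β
    exact key (fun v => β (v.1 + i, v.2 + j))
  have h4 : F = {β : V → Bool | E (fun t => β (ε t)) ∈ F} := by
    ext β
    exact key β
  calc Pr {β : V → Bool | (fun v => β (v.1 + i, v.2 + j)) ∈ F} = Pr {β : V → Bool | E (fun t => β (ε' t)) ∈ F} := by rw [h3]
    _ = Pr {β : V → Bool | E (fun t => β (ε t)) ∈ F} := by
      refine h2.trans ?_
      exact h1.symm
    _ = Pr F := by rw [← h4]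

end TP.TW
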